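import Mathlib

set_option autoImplicit false

namespace Pool.Agent.Results.MP_6087e2_al.AllN

open Quaternion Matrix

abbrev F := FreeGroup Bool

def s (R : Type) [CommRing R] : Bool × Bool → ℍ[R]
  | (true, true) => ⟨3, 4, 0, 0⟩
  | (true, false) => ⟨3, -4, 0, 0⟩
  | (false, true) => ⟨3, 0, 4, 0⟩
  | (false, false) => ⟨3, 0, -4, 0⟩

def cst (R : Type) [CommRing R] (p : ℍ[ℤ]) : ℍ[R] := ⟨p.re, p.imI, p.imJ, p.imK⟩

lemma cst_prod (R : Type) [CommRing R] (L : List (Bool × Bool)) :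
    (L.map (s R)).prod = cst R (L.map (s ℤ)).prod := by
  induction L with
  | nil => ext <;> simp [cst]
  | cons x L ih =>
    rw [List.map_cons, List.prod_cons, ih, List.map_cons, List.prod_cons]
    rcases x with ⟨_ | _, _ | _⟩ <;> ext <;> simp [cst, s]

instance five : Fact (Nat.Prime 5) := ⟨by norm_num⟩

lemma mod5 : ∀ (L : List (Bool × Bool)) (x : Bool × Bool), FreeGroup.IsReduced (x :: L) →
    ((x :: L).map (s (ZMod 5))).prod ≠ 0 := by
  intro L
  induction L with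
  | nil =>
    intro x _ h
    have := congrArg QuaternionAlgebra.re h
    rcases x with ⟨_ | _, _ | _⟩ <;> simp [s] at this <;> revert this <;> decide
  | cons y L ih =>
    intro x hx h
    rw [FreeGroup.isReduced_cons_cons] at hx
    refine ih y hx.2 ?_
    rw [List.map_cons, List.prod_cons] at h
    have h1 : s (ZMod 5) (y.1, !y.2) * s (ZMod 5) y = 0 := by
      rcases y with ⟨_ | _, _ | _⟩ <;> ext <;> simp [s] <;> decide
    have h2 : s (ZMod 5) (y.1, !y.2) * ((y :: L).map (s (ZMod 5))).prod = 0 := by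
      rw [List.map_cons, List.prod_cons, ← mul_assoc, h1, zero_mul]
    have h3 : normSq (s (ZMod 5) x - s (ZMod 5) (y.1, !y.2)) ≠ 0 := by
      have := hx.1
      rcases x with ⟨_ | _, _ | _⟩ <;> rcases y with ⟨_ | _, _ | _⟩ <;>
        simp [s, normSq_def'] at this ⊢ <;> decide
    have h4 := congrArg (star (s (ZMod 5) x - s (ZMod 5) (y.1, !y.2)) * ·)
      (show (s (ZMod 5) x - s (ZMod 5) (y.1, !y.2)) * ((y :: L).map (s (ZMod 5))).prod = 0 by
        rw [sub_mul, h, h2, sub_zero])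
    simp only [← mul_assoc, star_mul_self, mul_zero, coe_mul_eq_smul] at h4
    exact (smul_eq_zero.1 h4).resolve_left h3

noncomputable def u (b : Bool) : unitary ℍ[ℝ] :=
  ⟨(5⁻¹ : ℝ) • s ℝ (b, true), by
    cases b <;> constructor <;> ext <;> simp [s] <;> norm_num⟩

noncomputable def rho : F →* unitary ℍ[ℝ] := FreeGroup.lift u

lemma rho_inj : Function.Injective rho := by
  refine (injective_iff_map_eq_one _).2 fun g hg => ?_
  have key : ∀ L : List (Bool × Bool), (L.map (s ℝ)).prod =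
      (5 : ℝ) ^ L.length • (rho (FreeGroup.mk L) : ℍ[ℝ]) := by
    intro L
    rw [rho, FreeGroup.lift_mk]
    induction L with
    | nil => simp
    | cons x L ih =>
      have : s ℝ x = (5 : ℝ) • ((cond x.2 (u x.1) (u x.1)⁻¹ : unitary ℍ[ℝ]) : ℍ[ℝ]) := by
        rcases x with ⟨_ | _, _ | _⟩ <;> ext <;> simp [u, s, ← Unitary.star_eq_inv]
      rw [List.map_cons, List.prod_cons, ih, List.map_cons, List.prod_cons, this,
        smul_mul_smul_comm, List.length_cons, pow_succ']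
      rfl
  have h := key g.toWord
  rw [FreeGroup.mk_toWord, hg, cst_prod] at h
  rw [← FreeGroup.toWord_eq_nil_iff]
  have hr := FreeGroup.isReduced_toWord (x := g)
  rcases hL : g.toWord with _ | ⟨x, L⟩
  · rfl
  rw [hL] at h hr
  refine absurd ?_ (mod5 L x hr)
  rw [cst_prod]
  generalize (List.map (s ℤ) (x :: L)).prod = P at h
  have h1 : (P.re : ℝ) = 5 ^ (L.length + 1) := by
    simpa [cst] using congrArg QuaternionAlgebra.re h
  have h2 : P.imI = 0 := by simpa [cst] using congrArg QuaternionAlgebra.imI h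
  have h3 : P.imJ = 0 := by simpa [cst] using congrArg QuaternionAlgebra.imJ h
  have h4 : P.imK = 0 := by simpa [cst] using congrArg QuaternionAlgebra.imK h
  have h5 : P.re = 5 ^ (L.length + 1) := by exact_mod_cast h1
  have h6 : (5 : ZMod 5) = 0 := by decide
  ext <;> simp [cst, h2, h3, h4, h5, h6]

def cmp (p : ℍ[ℝ]) : Fin 4 → ℝ := ![p.re, p.imI, p.imJ, p.imK]

def q4 (v : Fin 4 → ℝ) : ℍ[ℝ] := ⟨v 0, v 1, v 2, v 3⟩

noncomputable def M4 (p q : ℍ[ℝ]) : Matrix (Fin 4) (Fin 4) ℝ :=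
  of fun i j => cmp (p * q4 (Pi.single j 1) * star q) i

lemma M4_vec (p q : ℍ[ℝ]) (v : Fin 4 → ℝ) : M4 p q *ᵥ v = cmp (p * q4 v * star q) := by
  ext i; fin_cases i <;> simp [M4, cmp, q4, mulVec, dotProduct, Fin.sum_univ_four] <;> ring

lemma q4_cmp (p : ℍ[ℝ]) : q4 (cmp p) = p := rfl

lemma cmp_q4 (v : Fin 4 → ℝ) : cmp (q4 v) = v := by ext i; fin_cases i <;> rfl

lemma M4_mul (p q p' q' : ℍ[ℝ]) : M4 (p * p') (q * q') = M4 p q * M4 p' q' := by
  refine ext_of_mulVec_single fun i => ?_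
  rw [← mulVec_mulVec, M4_vec, M4_vec, M4_vec, q4_cmp, star_mul]
  simp only [mul_assoc]

lemma M4_one : M4 1 1 = 1 := by
  refine ext_of_mulVec_single fun i => ?_
  rw [M4_vec, one_mulVec, star_one, one_mul, mul_one, cmp_q4]

lemma M4_T (p q : ℍ[ℝ]) : (M4 p q)ᵀ = M4 (star p) (star q) := by
  ext i j; fin_cases i <;> fin_cases j <;> simp [M4, cmp, q4] <;> ring

lemma M4_det (p q : ℍ[ℝ]) : (M4 p q).det = normSq p ^ 2 * normSq q ^ 2 := by
  have : M4 p q = M4 p 1 * M4 1 q := by rw [← M4_mul, mul_one, one_mul]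
  rw [this, det_mul]
  congr 1 <;> simp [M4, cmp, q4, det_succ_row_zero, Fin.sum_univ_succ, Fin.succAbove,
    normSq_def'] <;> ring

noncomputable def M3 (p : ℍ[ℝ]) : Matrix (Fin 3) (Fin 3) ℝ := of fun i j => M4 p p i.succ j.succ

def q3 (v : Fin 3 → ℝ) : ℍ[ℝ] := ⟨0, v 0, v 1, v 2⟩

lemma q3_inj : Function.Injective q3 := fun v w h => by
  ext i; fin_cases i
  · exact congrArg QuaternionAlgebra.imI h
  · exact congrArg QuaternionAlgebra.imJ h
  · exact congrArg QuaternionAlgebra.imK h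

lemma M3_vec (p : ℍ[ℝ]) (v : Fin 3 → ℝ) : q3 (M3 p *ᵥ v) = p * q3 v * star p := by
  ext <;> simp [M3, M4, cmp, q4, q3, mulVec, dotProduct, Fin.sum_univ_three] <;> ring

lemma M3_mul (p p' : ℍ[ℝ]) : M3 (p * p') = M3 p * M3 p' := by
  refine ext_of_mulVec_single fun i => q3_inj ?_
  rw [← mulVec_mulVec, M3_vec, M3_vec, M3_vec, star_mul]
  simp only [mul_assoc]

lemma M3_one : M3 1 = 1 := by
  refine ext_of_mulVec_single fun i => q3_inj ?_
  rw [M3_vec, one_mulVec, star_one, one_mul, mul_one]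

lemma M3_T (p : ℍ[ℝ]) : (M3 p)ᵀ = M3 (star p) := by
  ext i j; exact congrFun (congrFun (M4_T p p) i.succ) j.succ

lemma M3_det (p : ℍ[ℝ]) : (M3 p).det = normSq p ^ 3 := by
  simp [M3, M4, cmp, q4, det_fin_three, normSq_def']; ring

lemma nsq (p : unitary ℍ[ℝ]) : normSq (p : ℍ[ℝ]) = 1 := by
  have := p.2.1
  rw [star_mul_self] at this
  simpa using congrArg QuaternionAlgebra.re this

/-- Representation data. -/
def Rep (I : Type) [Fintype I] [DecidableEq I] (d : F → ℝ) (neg : Prop) : Prop :=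
  ∃ f : F →* Matrix I I ℝ, (∀ g, f g * (f g)ᵀ = 1) ∧ (∀ g, (f g).det = d g) ∧
    (∀ g h x, x ≠ 0 → f g *ᵥ x = x → f h *ᵥ x = x → g * h = h * g) ∧
    (∀ g, f g = 1 → g = 1) ∧ (neg → ∃ g x, x ≠ 0 ∧ f g *ᵥ x = -x)

lemma Rep.sum {I J : Type} [Fintype I] [DecidableEq I] [Fintype J] [DecidableEq J]
    {d e : F → ℝ} {p q : Prop} (h1 : Rep I d p) (h2 : Rep J e q) : Rep (I ⊕ J) (d * e) p := by
  obtain ⟨f, a1, a2, a3, a4, a5⟩ := h1
  obtain ⟨k, b1, b2, b3, -, -⟩ := h2
  refine ⟨⟨⟨fun g => fromBlocks (f g) 0 0 (k g), by simp⟩, fun g h => by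
    simp [fromBlocks_multiply]⟩, fun g => ?_, fun g => ?_, fun g h x hx e1 e2 => ?_,
    fun g e => a4 g ?_, fun hp => ?_⟩
  · simp [fromBlocks_transpose, fromBlocks_multiply, a1, b1]
  · simp [a2, b2]
  · simp only [MonoidHom.coe_mk, OneHom.coe_mk, fromBlocks_mulVec, zero_mulVec, add_zero,
      zero_add] at e1 e2
    by_cases c : x ∘ Sum.inl = 0
    · refine b3 g h (x ∘ Sum.inr) (fun c' => hx ?_) (funext fun i => congrFun e1 (.inr i))
        (funext fun i => congrFun e2 (.inr i))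
      funext i; cases i
      · exact congrFun c _
      · exact congrFun c' _
    · exact a3 g h _ c (funext fun i => congrFun e1 (.inl i)) (funext fun i => congrFun e2 (.inl i))
  · exact (fromBlocks_inj.1 (e.trans fromBlocks_one.symm)).1
  · obtain ⟨g, x, hx, e⟩ := a5 hp
    refine ⟨g, Sum.elim x 0, fun c => hx (funext fun i => congrFun c (.inl i)), ?_⟩
    funext i; cases i <;> simp [fromBlocks_mulVec, e]

lemma Rep.equiv {I J : Type} [Fintype I] [DecidableEq I] [Fintype J] [DecidableEq J]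
    {d : F → ℝ} {p : Prop} (e : I ≃ J) (h1 : Rep I d p) : Rep J d p := by
  obtain ⟨f, a1, a2, a3, a4, a5⟩ := h1
  refine ⟨(reindexAlgEquiv ℝ ℝ e : Matrix I I ℝ →* Matrix J J ℝ).comp f, fun g => ?_,
    fun g => by simp [a2], fun g h x hx e1 e2 => a3 g h (x ∘ e) (fun c => hx ?_) ?_ ?_,
    fun g c => a4 g ((reindexAlgEquiv ℝ ℝ e).injective (c.trans (map_one _).symm)), fun hp => ?_⟩
  · simp [submatrix_mul_equiv, a1]
  · funext j; simpa using congrFun c (e.symm j)
  · funext i; simpa [submatrix_mulVec_equiv] using congrFun e1 (e i)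
  · funext i; simpa [submatrix_mulVec_equiv] using congrFun e2 (e i)
  · obtain ⟨g, x, hx, c⟩ := a5 hp
    refine ⟨g, x ∘ e.symm, fun c => hx (funext fun i => by simpa using congrFun c (e i)), ?_⟩
    funext j; simp [submatrix_mulVec_equiv, Function.comp_assoc, c]

lemma comm_of {g h : F} (e : (rho g : ℍ[ℝ]) * rho h = rho h * rho g) : g * h = h * g :=
  rho_inj (by rw [map_mul, map_mul]; exact Subtype.ext e)

lemma sq_comm {g h : F} (e : g ^ 2 * h ^ 2 = h ^ 2 * g ^ 2) : g * h = h * g := by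
  have key : ∀ a b : F, a ^ 2 * b = b * a ^ 2 → a * b = b * a := fun a b e => by
    have : (b⁻¹ * a * b) ^ 2 = a ^ 2 := by
      rw [show (b⁻¹ * a * b) ^ 2 = b⁻¹ * (a ^ 2 * b) by simp [sq, mul_assoc], e]; simp
    have h2 : b⁻¹ * a * b = a := pow_left_injective two_ne_zero this
    calc a * b = b * (b⁻¹ * a * b) := by simp [mul_assoc]
      _ = b * a := by rw [h2]
  exact (key _ _ (key _ _ e).symm).symm

lemma cent (g : F) (h1 : g * .of true = .of true * g) (h2 : g * .of false = .of false * g) :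
    g = 1 := by
  have a := congrArg (fun k => (rho k : ℍ[ℝ])) h1
  have b := congrArg (fun k => (rho k : ℍ[ℝ])) h2
  have c := nsq (rho g)
  have : (rho (g ^ 2) : ℍ[ℝ]) = 1 := by
    simp only [map_mul, Submonoid.coe_mul, sq] at a b ⊢
    generalize (rho g : ℍ[ℝ]) = p at a b c
    simp [Quaternion.ext_iff, rho, u, s, normSq_def'] at a b c ⊢
    grind
  have h3 : g ^ 2 = 1 := rho_inj (Subtype.ext (this.trans (by simp)))
  exact pow_left_injective two_ne_zero (h3.trans (one_pow 2).symm)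

lemma rep3 (e : F →* ℝ) (he : ∀ g, e g * e g = 1) : Rep (Fin 3) e (e (.of true) = -1) := by
  have hsq : ∀ g x, (e g • M3 (rho g)) *ᵥ x = x →
      (rho (g ^ 2) : ℍ[ℝ]) * q3 x = q3 x * rho (g ^ 2) := fun g x h => by
    have h2 : (e g • M3 (rho g)) *ᵥ ((e g • M3 (rho g)) *ᵥ x) = x := by rw [h, h]
    rw [mulVec_mulVec, smul_mul_smul_comm, he, one_smul, ← M3_mul] at h2
    have h3 := M3_vec (rho g * rho g) x
    rw [h2] at h3
    rw [sq, map_mul, Submonoid.coe_mul]
    have h4 : star ((rho g : ℍ[ℝ]) * rho g) * (rho g * rho g) = 1 := (rho g * rho g).2.1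
    conv_rhs => rw [h3, mul_assoc, h4, mul_one]
  have lc : ∀ g h x, x ≠ 0 → (e g • M3 (rho g)) *ᵥ x = x → (e h • M3 (rho h)) *ᵥ x = x →
      g * h = h * g := fun g h x hx e1 e2 => by
    refine sq_comm (comm_of ?_)
    have a := hsq g x e1
    have b := hsq h x e2
    generalize (rho (g ^ 2) : ℍ[ℝ]) = p at a
    generalize (rho (h ^ 2) : ℍ[ℝ]) = q at b
    simp only [Quaternion.ext_iff, q3, re_mul, imI_mul, imJ_mul, imK_mul] at a b ⊢
    have : x 0 ≠ 0 ∨ x 1 ≠ 0 ∨ x 2 ≠ 0 := by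
      by_contra c
      push Not at c
      exact hx (by ext i; fin_cases i <;> simp [c])
    grind
  refine ⟨⟨⟨fun g => e g • M3 (rho g), by simp [M3_one]⟩, fun g h => by
    simp [M3_mul, smul_smul, mul_comm]⟩, fun g => ?_, fun g => ?_, lc, fun g c => ?_, fun hp => ?_⟩
  · simp only [MonoidHom.coe_mk, OneHom.coe_mk]
    rw [transpose_smul, smul_mul_smul_comm, he, one_smul, M3_T, ← M3_mul, (rho g).2.2, M3_one]
  · simp only [MonoidHom.coe_mk, OneHom.coe_mk]
    rw [det_smul, M3_det, nsq, Fintype.card_fin, pow_succ, sq, he]; simp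
  · have c' : e g • M3 (rho g) = 1 := c
    have hc : ∀ b, g * .of b = .of b * g := fun b => by
      have := hsq g (if b then ![1, 0, 0] else ![0, 1, 0]) (by rw [c', one_mulVec])
      have h2 : (rho (g ^ 2) : ℍ[ℝ]) * rho (.of b) = rho (.of b) * rho (g ^ 2) := by
        generalize (rho (g ^ 2) : ℍ[ℝ]) = p at this
        cases b <;> simp [Quaternion.ext_iff, q3, rho, u, s] at this ⊢ <;> grind
      have h3 := comm_of h2
      exact sq_comm (show Commute (g ^ 2) _ from Commute.pow_right h3 2)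
    exact cent g (hc _) (hc _)
  · refine ⟨.of true, ![1, 0, 0], fun c => by simpa using congrFun c 0, q3_inj ?_⟩
    simp only [MonoidHom.coe_mk, OneHom.coe_mk]
    rw [hp, smul_mulVec, neg_one_smul]
    refine congrArg q3 (congrArg Neg.neg (q3_inj ?_))
    rw [M3_vec]
    ext <;> simp [rho, u, s, q3] <;> norm_num

noncomputable def chi : F →* unitary ℍ[ℝ] := FreeGroup.lift fun b => cond b (-u true) 1

lemma chi_comm (g h : F) : Commute (chi g) (chi h) := by
  have key : ∀ g : F, chi g ∈ Subgroup.zpowers (-u true) := fun g => by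
    induction g using FreeGroup.induction_on with
    | C1 => simp
    | of b => cases b <;> simp [chi]
    | inv_of b h => rw [map_inv]; exact inv_mem h
    | mul x y a b => rw [map_mul]; exact mul_mem a b
  obtain ⟨m, hm⟩ := key g
  obtain ⟨n, hn⟩ := key h
  rw [← hm, ← hn]
  exact Commute.zpow_zpow_self _ _ _

lemma rep4 : Rep (Fin 4) 1 True := by
  have lc : ∀ g h x, x ≠ 0 → M4 (rho g) (chi g) *ᵥ x = x → M4 (rho h) (chi h) *ᵥ x = x →
      g * h = h * g := fun g h x hx e1 e2 => by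
    refine comm_of ?_
    have hq : q4 x ≠ 0 := fun c => hx (by
      rw [← cmp_q4 x, c]; ext i; fin_cases i <;> rfl)
    have key : ∀ k, M4 (rho k) (chi k) *ᵥ x = x → (rho k : ℍ[ℝ]) * q4 x = q4 x * chi k :=
      fun k e => by
        have := congrArg q4 e
        rw [M4_vec, q4_cmp] at this
        conv_rhs => rw [← this, mul_assoc, (chi k).2.1, mul_one]
    refine mul_right_cancel₀ hq ?_
    have c : (chi g : ℍ[ℝ]) * chi h = chi h * chi g := congrArg Subtype.val (chi_comm g h)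
    rw [mul_assoc, key h e2, ← mul_assoc, key g e1, mul_assoc, c, mul_assoc, key g e1,
      ← mul_assoc (rho h : ℍ[ℝ]), key h e2, mul_assoc]
  refine ⟨⟨⟨fun g => M4 (rho g) (chi g), by simp [M4_one]⟩, fun g h => by
    simp [M4_mul]⟩, fun g => ?_, fun g => ?_, lc, fun g c => ?_, fun _ => ?_⟩
  · simp only [MonoidHom.coe_mk, OneHom.coe_mk]
    rw [M4_T, ← M4_mul, (rho g).2.2, (chi g).2.2, M4_one]
  · simp only [MonoidHom.coe_mk, OneHom.coe_mk]
    rw [M4_det, nsq, nsq]; simp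
  · have c' : M4 (rho g) (chi g) = 1 := c
    have key : ∀ p : ℍ[ℝ], (rho g : ℍ[ℝ]) * p = p * chi g := fun p => by
      have := M4_vec (rho g) (chi g) (cmp p)
      rw [c', one_mulVec, q4_cmp] at this
      have h2 := congrArg q4 this
      rw [q4_cmp, q4_cmp] at h2
      conv_rhs => rw [h2, mul_assoc, (chi g).2.1, mul_one]
    have k1 := key 1
    rw [mul_one, one_mul] at k1
    exact cent g (comm_of (by rw [key, k1])) (comm_of (by rw [key, k1]))
  · refine ⟨.of true, ![1, 0, 0, 0], fun c => by simpa using congrFun c 0, ?_⟩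
    simp only [MonoidHom.coe_mk, OneHom.coe_mk]
    have hc : (chi (.of true) : ℍ[ℝ]) = -(u true : ℍ[ℝ]) := by
      rw [chi, FreeGroup.lift_apply_of]; rfl
    rw [M4_vec, hc]
    ext i; fin_cases i <;> simp [rho, u, s, q4, cmp] <;> norm_num

lemma repn (n : ℕ) (hn : n = 4 ∨ 6 ≤ n) : Rep (Fin n) 1 True := by
  have r3 : Rep (Fin 3) 1 (((1 : F →* ℝ) (.of true)) = -1) := rep3 1 (by simp)
  have add : ∀ {a b : ℕ} {q : Prop}, Rep (Fin a) 1 True → Rep (Fin b) 1 q →
      Rep (Fin (a + b)) 1 True := fun h1 h2 => by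
    simpa using (h1.sum h2).equiv finSumFinEquiv
  have r6 : Rep (Fin 6) 1 True := by
    let e : F →* ℝ := (Units.coeHom ℝ).comp (FreeGroup.lift fun _ => -1)
    have he : ∀ g, e g * e g = 1 := fun g => by
      induction g using FreeGroup.induction_on with
      | C1 => simp
      | of b => simp [e]
      | inv_of b h => simp [e]
      | mul x y a b => rw [map_mul, mul_mul_mul_comm, a, b, one_mul]
    have := ((rep3 e he).sum (rep3 e he)).equiv finSumFinEquiv
    rwa [show (e * e : F → ℝ) = 1 from funext he, eq_true (by simp [e] : e (.of true) = -1)]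
      at this
  induction n using Nat.strong_induction_on with
  | _ n ih =>
    obtain rfl | rfl | rfl | h : n = 4 ∨ n = 6 ∨ n = 8 ∨ (n = 7 ∨ 9 ≤ n) := by omega
    · exact rep4
    · exact r6
    · exact add rep4 rep4
    · obtain ⟨m, rfl⟩ : ∃ m, n = m + 3 := ⟨n - 3, by omega⟩
      exact add (ih m (by omega) (by omega)) r3

theorem result (n : ℕ) (hn : n = 4 ∨ 6 ≤ n) :
    ∃ G : Subgroup (specialOrthogonalGroup (Fin n) ℝ), Nonempty (G ≃* FreeGroup (Fin 2)) ∧
      (∀ g ∈ G, ∀ h ∈ G, ∀ x : Fin n → ℝ, ∑ i, x i ^ 2 = 1 → g.1 *ᵥ x = x → h.1 *ᵥ x = x →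
        g * h = h * g) ∧
      ∃ g ∈ G, ∃ x : Fin n → ℝ, x ≠ 0 ∧ g.1 *ᵥ x = -x := by
  obtain ⟨f, a1, a2, a3, a4, a5⟩ := repn n hn
  let k : F →* specialOrthogonalGroup (Fin n) ℝ := f.codRestrict _ fun g =>
    mem_specialOrthogonalGroup_iff.2 ⟨(mem_orthogonalGroup_iff _ _).2 (a1 g), a2 g⟩
  have hk : Function.Injective k :=
    (injective_iff_map_eq_one _).2 fun g c => a4 g (congrArg Subtype.val c)
  refine ⟨k.range, ⟨(MonoidHom.ofInjective hk).symm.trans
    (FreeGroup.freeGroupCongr finTwoEquiv.symm)⟩, ?_, ?_⟩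
  · rintro _ ⟨g, rfl⟩ _ ⟨h, rfl⟩ x hx e1 e2
    rw [← map_mul, ← map_mul, a3 g h x (by rintro rfl; simp at hx) e1 e2]
  · obtain ⟨g, x, hx, e⟩ := a5 trivial
    exact ⟨k g, ⟨g, rfl⟩, x, hx, e⟩

end Pool.Agent.Results.MP_6087e2_al.AllN
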